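import Pool.Agent.PiTow.Logs

/-!
# The moment curve, and polynomial exponents
-/

set_option autoImplicit false

namespace Pool.Agent.PiTow

open Module Submodule

/-- the field of the algebraic numbers -/
noncomputable def Ka : Subfield ℂ := (algebraicClosure ℚ ℂ).toSubfield

theorem mem_Ka (c : ℂ) : c ∈ Ka ↔ IsAlgebraic ℚ c := mem_algebraicClosure_iff

/-- Baker's theorem as independence over `Ka` -/
theorem indep_Ka {N : ℕ} (u : Fin N → ℂ) (hu : LinearIndependent ℚ u)
    (he : ∀ i, IsAlgebraic ℚ (Complex.exp (u i))) : LinearIndependent Ka u := by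
  rw [Fintype.linearIndependent_iff]
  intro g hg i
  have h1 := (Pool.Agent.BKR.baker u hu he (fun i => (g i : ℂ)) 0
    (fun i => (mem_Ka _).1 (g i).2) isAlgebraic_zero (by
      rw [zero_add, ← hg]
      exact Finset.sum_congr rfl fun i _ => (Algebra.smul_def (g i) (u i)).symm)).2 i
  exact Subtype.ext h1

/-- part (2) -/
theorem part2 (e : ℕ) (x : ℂ) (hx : ¬ IsAlgebraic ℚ x) (lam : ℂ) (hlam : lam ≠ 0)
    (t : Fin (e + 2) → ℂ) (ht : ∀ i, IsAlgebraic ℚ (Complex.exp (t i)))
    (hind : ∀ m : Fin (e + 2) → ℤ, ∏ i, Complex.exp (t i) ^ m i = 1 → m = 0) :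
    {β : ℂ | IsAlgebraic ℚ β ∧ ∃ z, Pool.Agent.DI.RX e x z ∧
      Complex.exp (z * lam) = Complex.exp (∑ i : Fin (e + 2), β ^ (i : ℕ) * t i)}.Finite := by
  classical
  have hu := indep_Ka _ (indep_logs t hind) (exp_cons_alg t ht)
  obtain ⟨n, U, hU, hUe⟩ := key Ka (fun c hc => (mem_Ka c).1 hc) e x hx lam hlam _ hu
    (Pool.Agent.DI.free0_all Ka mem_Ka _)
  by_contra hcon
  have hz : ∀ β : {β : ℂ | IsAlgebraic ℚ β ∧ ∃ z, Pool.Agent.DI.RX e x z ∧
      Complex.exp (z * lam) = Complex.exp (∑ i : Fin (e + 2), β ^ (i : ℕ) * t i)}, ∃ i : Fin n,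
      (fun l : Fin (e + 2) => (⟨β.1, (mem_Ka _).2 β.2.1⟩ : Ka) ^ (l : ℕ)) ∈ U i := by
    rintro ⟨β, hβ, z, hz, hz2⟩
    obtain ⟨k, hk⟩ := Complex.exp_eq_exp_iff_exists_int.1 hz2
    have h2 := hUe (Fin.cons (k : Ka) fun l : Fin (e + 2) => (⟨β, (mem_Ka _).2 hβ⟩ : Ka) ^ (l : ℕ))
      (by
        have h3 : (∑ i, (((Fin.cons (k : Ka) fun l : Fin (e + 2) =>
            (⟨β, (mem_Ka _).2 hβ⟩ : Ka) ^ (l : ℕ) : Fin (e + 2 + 1) → Ka) i : Ka) : ℂ) *
            (Fin.cons (2 * Real.pi * Complex.I) t : Fin (e + 2 + 1) → ℂ) i) / lam = z := by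
          rw [Fin.sum_univ_succ, div_eq_iff hlam, hk]
          simp only [Fin.cons_zero, Fin.cons_succ, SubmonoidClass.coe_pow]
          push_cast
          ring
        rw [h3]
        exact hz)
    obtain ⟨j, hj⟩ := h2
    exact ⟨j, by simpa only [Fin.cons_succ] using hj⟩
  have hinf : Set.Infinite {β : ℂ | IsAlgebraic ℚ β ∧ ∃ z, Pool.Agent.DI.RX e x z ∧
      Complex.exp (z * lam) = Complex.exp (∑ i : Fin (e + 2), β ^ (i : ℕ) * t i)} := hcon
  have := hinf.to_subtype
  choose idx hidx using hz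
  obtain ⟨k, hk⟩ := Finite.exists_infinite_fiber idx
  have hk' : Infinite (idx ⁻¹' {k}) := hk
  obtain ⟨b, hb⟩ : ∃ b : Fin (e + 2) → idx ⁻¹' {k}, Function.Injective b :=
    ⟨_, (Infinite.natEmbedding _).injective.comp Fin.val_injective⟩
  let β : Fin (e + 2) → Ka := fun j => ⟨(b j).1.1, (mem_Ka _).2 (b j).1.2.1⟩
  have hβi : Function.Injective β := fun i j h => hb (Subtype.ext (Subtype.ext
    (congrArg (fun z : Ka => (z : ℂ)) h)))
  have hβU : ∀ j, (fun l : Fin (e + 2) => β j ^ (l : ℕ)) ∈ U k := fun j => by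
    have h1 := hidx (b j).1
    have h2 : idx (b j).1 = k := (b j).2
    rwa [h2] at h1
  have hind2 : LinearIndependent Ka fun j => (⟨fun l : Fin (e + 2) => β j ^ (l : ℕ), hβU j⟩ : U k) := by
    have h0 : LinearIndependent Ka fun j => (fun l : Fin (e + 2) => β j ^ (l : ℕ)) := by
      have h1 := Matrix.linearIndependent_rows_of_det_ne_zero
        (Matrix.det_vandermonde_ne_zero_iff.2 hβi)
      exact h1
    exact LinearIndependent.of_comp (U k).subtype h0
  have h7 := hind2.fintype_card_le_finrank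
  rw [Fintype.card_fin] at h7
  have h8 := hU k
  omega

/-- part (3) -/
theorem part3 (d : ℕ) (x : ℂ) (hx : ¬ IsAlgebraic ℚ x) (lam : ℂ) (hlam : lam ≠ 0)
    (y : ℂ) (hy : y ≠ 0) (P : Fin (d + 2) → Polynomial ℂ)
    (hP : ∀ j n, IsAlgebraic ℚ ((P j).coeff n)) (hd : ∀ j, (P j).natDegree ≤ d)
    (hi : LinearIndependent ℚ P) :
    ∃ j, ¬ IsAlgebraic ℚ (Complex.exp ((P j).eval x / y * lam)) := by
  by_contra hcon
  push Not at hcon
  -- the values are independent over `ℚ`
  have h1 : LinearIndependent ℚ fun j => (P j).eval x / y * lam := by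
    rw [Fintype.linearIndependent_iff] at hi ⊢
    intro g hg
    refine hi g ?_
    by_contra hne
    have h2 : (∑ j, g j • P j).eval x = 0 := by
      have h3 : (∑ j, g j • P j).eval x * (lam / y) = 0 := by
        rw [← hg, Polynomial.eval_finsetSum, Finset.sum_mul]
        refine Finset.sum_congr rfl fun j _ => ?_
        rw [Polynomial.eval_smul, Rat.smul_def, Rat.smul_def]
        ring
      exact (mul_eq_zero.1 h3).resolve_right (div_ne_zero hlam hy)
    have h4 : ∀ n, IsAlgebraic ℚ ((∑ j, g j • P j).coeff n) := fun n => by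
      rw [Polynomial.finsetSum_coeff]
      refine mem_algebraicClosure_iff.1 (sum_mem fun j _ => mem_algebraicClosure_iff.2 ?_)
      rw [Polynomial.coeff_smul, Rat.smul_def]
      exact (isAlgebraic_ratCast ℚ _).mul (hP j n)
    obtain ⟨R, hR⟩ : ∃ R : Polynomial (algebraicClosure ℚ ℂ),
        R.map (algebraMap (algebraicClosure ℚ ℂ) ℂ) = ∑ j, g j • P j := by
      rw [← Polynomial.mem_lifts, Polynomial.lifts_iff_coeff_lifts]
      intro n
      exact ⟨⟨_, mem_algebraicClosure_iff.2 (h4 n)⟩, rfl⟩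
    have h5 : IsAlgebraic (algebraicClosure ℚ ℂ) x := by
      refine ⟨R, fun h => hne ?_, ?_⟩
      · rw [← hR, h, Polynomial.map_zero]
      · rw [Polynomial.aeval_def, ← Polynomial.eval_map, hR]
        exact h2
    have h6 : Algebra.IsAlgebraic ℚ (algebraicClosure ℚ ℂ) := algebraicClosure.isAlgebraic ℚ ℂ
    exact hx (h5.restrictScalars ℚ)
  -- the polynomials are dependent over the algebraic numbers
  let w : Fin (d + 2) → Fin (d + 1) → Ka := fun j n => ⟨(P j).coeff n, (mem_Ka _).2 (hP j n)⟩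
  have h2 : ¬ LinearIndependent Ka w := fun h => by
    have := h.fintype_card_le_finrank
    simp at this
  rw [Fintype.not_linearIndependent_iff] at h2
  obtain ⟨g, hg, j, hj⟩ := h2
  have h3 : ∀ n : Fin (d + 1), ∑ j, (g j : ℂ) * (P j).coeff n = 0 := fun n => by
    have h4 := congrArg (fun z : Ka => (z : ℂ)) (congrFun hg n)
    simp only [Finset.sum_apply, Pi.smul_apply, smul_eq_mul] at h4
    refine Eq.trans ?_ h4
    push_cast
    rfl
  have h4 : ∑ j, (g j : ℂ) * (P j).eval x = 0 := by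
    have h5 : ∀ j, (P j).eval x = ∑ n ∈ Finset.range (d + 1), (P j).coeff n * x ^ n := fun j =>
      Polynomial.eval_eq_sum_range' (Nat.lt_succ_of_le (hd j)) x
    simp only [h5, Finset.mul_sum]
    rw [Finset.sum_comm]
    refine Finset.sum_eq_zero fun n hn => ?_
    have h6 := h3 ⟨n, Finset.mem_range.1 hn⟩
    simp only at h6
    rw [← zero_mul (x ^ n), ← h6, Finset.sum_mul]
    exact Finset.sum_congr rfl fun j _ => by ring
  have h5 := Fintype.linearIndependent_iff.1 (indep_Ka _ h1 hcon) g (by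
    have h6 : ∑ j, g j • ((P j).eval x / y * lam) = (∑ j, (g j : ℂ) * (P j).eval x) * (lam / y) := by
      rw [Finset.sum_mul]
      refine Finset.sum_congr rfl fun j _ => ?_
      rw [Algebra.smul_def]
      change (g j : ℂ) * _ = _
      ring
    rw [h6, h4, zero_mul]) j
  exact hj h5

end Pool.Agent.PiTow
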