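import Pool.Agent.DI.StrB
import Pool.Agent.QR.Elliptic
import Pool.Agent.BKR.Baker

/-!
# Powers with exponents over which a transcendental number has bounded degree
-/

set_option autoImplicit false

namespace Pool.Agent.PiTow

open Module Submodule

/-- The coefficient vectors of the elements of a space of logarithms, up to multiples of one of
them. -/
theorem key (F : Subfield ℂ) (hF : ∀ c ∈ F, IsAlgebraic ℚ c) (e : ℕ) (x : ℂ)
    (hx : ¬ IsAlgebraic ℚ x) (lam : ℂ) (hlam : lam ≠ 0) {N : ℕ} (u : Fin (N + 1) → ℂ)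
    (hu : LinearIndependent F u)
    (hfree : Pool.Agent.QNH.Free0 (algebraicClosure ℚ ℂ) (span F (Set.range u))) :
    ∃ (n : ℕ) (U : Fin n → Submodule F (Fin N → F)), (∀ j, finrank F (U j) ≤ e + 1) ∧
      ∀ m : Fin (N + 1) → F, Pool.Agent.DI.RX e x ((∑ i, (m i : ℂ) * u i) / lam) →
        ∃ j, (fun i => m i.succ) ∈ U j := by
  have hfin : FiniteDimensional F (span F (Set.range u)) :=
    FiniteDimensional.span_of_finite F (Set.finite_range _)
  obtain ⟨n, U, hU, hUe⟩ := Pool.Agent.DI.struct_div F hF e x hx (span F (Set.range u)) hfree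
    lam hlam
  let L : (Fin (N + 1) → F) →ₗ[F] ℂ := Fintype.linearCombination F u
  have hL : ∀ m, L m = ∑ i, (m i : ℂ) * u i := fun m => by
    simp only [L, Fintype.linearCombination_apply]
    exact Finset.sum_congr rfl fun i _ => Algebra.smul_def _ _
  have hLi : Function.Injective L := by
    rw [← LinearMap.ker_eq_bot, LinearMap.ker_eq_bot']
    intro m hm
    funext i
    exact Fintype.linearIndependent_iff.1 hu m
      (by rw [← Fintype.linearCombination_apply F u m]; exact hm) i
  refine ⟨n, fun j => ((U j).comap L).map (LinearMap.funLeft F F Fin.succ), fun j => ?_, ?_⟩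
  · have hfinU : FiniteDimensional F (U j) := Submodule.finiteDimensional_of_le (hU j).1
    refine (Submodule.finrank_map_le _ _).trans (le_trans ?_ (hU j).2)
    let g : (U j).comap L →ₗ[F] U j := L.restrict fun u hu => hu
    have hg : Function.Injective g := fun a b h => by
      apply Subtype.ext
      apply hLi
      exact congrArg (fun z : U j => (z : ℂ)) h
    exact LinearMap.finrank_le_finrank_of_injective hg
  · intro m hm
    have h1 : L m ∈ ⋃ i, (U i : Set ℂ) := by
      rw [← hUe]
      refine ⟨?_, ?_⟩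
      · rw [← Fintype.range_linearCombination]
        exact LinearMap.mem_range_self _ _
      · rw [hL]
        exact hm
    obtain ⟨j, hj⟩ := Set.mem_iUnion.1 h1
    exact ⟨j, m, hj, rfl⟩

/-- the field of the rational numbers in `ℂ` -/
noncomputable def Fq : Subfield ℂ := (algebraMap ℚ ℂ).fieldRange

theorem mem_Fq (c : ℂ) : c ∈ Fq ↔ ∃ q : ℚ, c = q := by
  simp only [Fq, RingHom.mem_fieldRange, eq_comm]
  rfl

theorem Fq_alg : ∀ c ∈ Fq, IsAlgebraic ℚ c := fun c hc => by
  obtain ⟨q, rfl⟩ := (mem_Fq c).1 hc
  exact isAlgebraic_ratCast ℚ q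

end Pool.Agent.PiTow
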