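import Pool.Agent.PiTow.Parts

/-!
# Logarithms
-/

set_option autoImplicit false

namespace Pool.Agent.PiTow

open Module Submodule

/-- `2 π i` and logarithms of multiplicatively independent numbers -/
theorem indep_logs {N : ℕ} (t : Fin N → ℂ)
    (hind : ∀ m : Fin N → ℤ, ∏ i, Complex.exp (t i) ^ m i = 1 → m = 0) :
    LinearIndependent ℚ (Fin.cons (2 * Real.pi * Complex.I) t : Fin (N + 1) → ℂ) := by
  rw [← LinearIndependent.iff_fractionRing ℤ ℚ, Fintype.linearIndependent_iff]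
  intro g hg
  rw [Fin.sum_univ_succ] at hg
  simp only [Fin.cons_zero, Fin.cons_succ, zsmul_eq_mul] at hg
  have h1 : ∏ i, Complex.exp (t i) ^ g i.succ = 1 := by
    have h2 : ∏ i, Complex.exp (t i) ^ g i.succ = Complex.exp (∑ i, (g i.succ : ℂ) * t i) := by
      rw [Complex.exp_sum]
      exact Finset.prod_congr rfl fun i _ => by rw [Complex.exp_int_mul]
    rw [h2]
    have h3 : ∑ i, (g (Fin.succ i) : ℂ) * t i = ((-g 0 : ℤ) : ℂ) * (2 * Real.pi * Complex.I) := by
      push_cast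
      linear_combination hg
    rw [h3]
    exact Complex.exp_int_mul_two_pi_mul_I _
  have h2 := hind _ h1
  have h3 : ∀ i : Fin N, g i.succ = 0 := fun i => congrFun h2 i
  intro i
  refine Fin.cases ?_ h3 i
  simp only [h3, Int.cast_zero, zero_mul, Finset.sum_const_zero, add_zero] at hg
  have h4 : (2 * Real.pi * Complex.I : ℂ) ≠ 0 := Complex.two_pi_I_ne_zero
  have h5 := (mul_eq_zero.1 hg).resolve_right h4
  exact_mod_cast h5

theorem exp_cons_alg {N : ℕ} (t : Fin N → ℂ) (ht : ∀ i, IsAlgebraic ℚ (Complex.exp (t i))) :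
    ∀ i, IsAlgebraic ℚ (Complex.exp
      ((Fin.cons (2 * Real.pi * Complex.I) t : Fin (N + 1) → ℂ) i)) := by
  intro i
  refine Fin.cases ?_ (fun i => ?_) i
  · rw [Fin.cons_zero, Complex.exp_two_pi_mul_I]
    exact isAlgebraic_one
  · rw [Fin.cons_succ]
    exact ht i

/-- part (1) -/
theorem part1 (e N : ℕ) (x : ℂ) (hx : ¬ IsAlgebraic ℚ x) (lam : ℂ) (hlam : lam ≠ 0)
    (a : Fin N → ℂ) (ha : ∀ i, IsAlgebraic ℚ (a i)) (ha0 : ∀ i, a i ≠ 0)
    (hind : ∀ m : Fin N → ℤ, ∏ i, a i ^ m i = 1 → m = 0) :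
    ∃ (n : ℕ) (U : Fin n → Submodule ℚ (Fin (N + 1) → ℚ)), (∀ j, finrank ℚ (U j) ≤ e + 1) ∧
      ∀ (q : ℚ) (m : Fin N → ℤ), (∃ z, Pool.Agent.DI.RX e x z ∧
        Complex.exp (z * lam) = Complex.exp q * ∏ i, a i ^ m i) →
        ∃ j, (Fin.cons q fun i => (m i : ℚ) : Fin (N + 1) → ℚ) ∈ U j := by
  let t : Fin N → ℂ := fun i => Complex.log (a i)
  have ht : ∀ i, Complex.exp (t i) = a i := fun i => Complex.exp_log (ha0 i)
  have hta : ∀ i, IsAlgebraic ℚ (Complex.exp (t i)) := fun i => by rw [ht]; exact ha i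
  have hi1 := indep_logs t (fun m hm => hind m (by simpa only [ht] using hm))
  have hea := exp_cons_alg t hta
  let s : ℂ := 2 * Real.pi * Complex.I
  let u : Fin (N + 1 + 1) → ℂ := Fin.cons s (Fin.cons 1 t)
  -- independence, with `1`
  have hu : LinearIndependent ℚ u := by
    rw [Fintype.linearIndependent_iff]
    intro g hg
    rw [Fin.sum_univ_succ, Fin.sum_univ_succ] at hg
    simp only [u, Fin.cons_zero, Fin.cons_succ, Rat.smul_def] at hg
    have h1 := Pool.Agent.BKR.baker (Fin.cons s t : Fin (N + 1) → ℂ) hi1 hea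
      (Fin.cons (g 0 : ℂ) fun i : Fin N => (g i.succ.succ : ℂ)) (g 1 : ℂ)
      (fun i => by
        refine Fin.cases ?_ (fun i => ?_) i
        · exact isAlgebraic_ratCast ℚ _
        · exact isAlgebraic_ratCast ℚ _)
      (isAlgebraic_ratCast ℚ _) (by
        rw [Fin.sum_univ_succ]
        simp only [Fin.cons_zero, Fin.cons_succ]
        rw [← hg]
        simp only [Fin.succ_zero_eq_one]
        ring)
    intro i
    refine Fin.cases ?_ (fun i => Fin.cases ?_ (fun i => ?_) i) i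
    · have := h1.2 0
      rw [Fin.cons_zero] at this
      exact_mod_cast this
    · have := h1.1
      exact_mod_cast this
    · have := h1.2 i.succ
      simp only [Fin.cons_succ] at this
      exact_mod_cast this
  have hfree : Pool.Agent.QNH.Free0 (algebraicClosure ℚ ℂ) (span Fq (Set.range u)) := by
    have h1 := Pool.Agent.QR.free_logF (fun _ _ t ht he b b0 hb hb0 h =>
      Pool.Agent.BKR.baker t ht he b b0 hb hb0 h) Fq mem_Fq hea
    have hs : Pool.Agent.QR.Sub Fq (algebraicClosure ℚ ℂ) ℂ := fun c =>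
      ⟨⟨c, mem_algebraicClosure_iff.2 (Fq_alg c c.2)⟩, rfl⟩
    refine (Pool.Agent.QNH.free0_of_free hs h1).mono ?_
    rw [span_le]
    rintro _ ⟨i, rfl⟩
    refine Fin.cases ?_ (fun i => Fin.cases ?_ (fun i => ?_) i) i
    · exact mem_sup_right (subset_span ⟨0, rfl⟩)
    · exact mem_sup_left (mem_span_singleton_self _)
    · exact mem_sup_right (subset_span ⟨i.succ, rfl⟩)
  obtain ⟨n, U, hU, hUe⟩ := part_q e x hx lam hlam u hu hfree
  refine ⟨n, U, hU, ?_⟩
  rintro q m ⟨z, hz, hz2⟩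
  have h1 : Complex.exp (z * lam) = Complex.exp (q + ∑ i, (m i : ℂ) * t i) := by
    rw [hz2, Complex.exp_add, Complex.exp_sum]
    congr 1
    exact Finset.prod_congr rfl fun i _ => by rw [Complex.exp_int_mul, ht]
  obtain ⟨k, hk⟩ := Complex.exp_eq_exp_iff_exists_int.1 h1
  have h2 := hUe (Fin.cons (k : ℚ) (Fin.cons q fun i => (m i : ℚ))) (by
    have h3 : (∑ i, (((Fin.cons (k : ℚ) (Fin.cons q fun i => (m i : ℚ)) :
        Fin (N + 1 + 1) → ℚ) i : ℚ) : ℂ) * u i) / lam = z := by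
      rw [Fin.sum_univ_succ, Fin.sum_univ_succ]
      simp only [u, Fin.cons_zero, Fin.cons_succ, mul_one]
      rw [div_eq_iff hlam, hk]
      push_cast
      simp only [s]
      ring
    rw [h3]
    exact hz)
  obtain ⟨j, hj⟩ := h2
  refine ⟨j, ?_⟩
  simpa only [Fin.cons_succ] using hj

end Pool.Agent.PiTow
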