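import Pool.Agent.PiTow.Key

/-!
# The three parts: finitely generated groups, the moment curve, polynomial exponents
-/

set_option autoImplicit false

namespace Pool.Agent.PiTow

open Module Submodule

/-- over the rational numbers -/
theorem part_q (e : ℕ) (x : ℂ) (hx : ¬ IsAlgebraic ℚ x) (lam : ℂ) (hlam : lam ≠ 0) {N : ℕ}
    (u : Fin (N + 1) → ℂ) (hu : LinearIndependent ℚ u)
    (hfree : Pool.Agent.QNH.Free0 (algebraicClosure ℚ ℂ) (span Fq (Set.range u))) :
    ∃ (n : ℕ) (U : Fin n → Submodule ℚ (Fin N → ℚ)), (∀ j, finrank ℚ (U j) ≤ e + 1) ∧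
      ∀ m : Fin (N + 1) → ℚ, Pool.Agent.DI.RX e x ((∑ i, (m i : ℂ) * u i) / lam) →
        ∃ j, (fun i => m i.succ) ∈ U j := by
  -- the isomorphism of `ℚ` with the field `Fq`
  let c : ℚ → Fq := fun q => ⟨(q : ℂ), (mem_Fq _).2 ⟨q, rfl⟩⟩
  have hc : ∀ q, ((c q : Fq) : ℂ) = q := fun q => rfl
  have hcs : Function.Surjective c := fun z => by
    obtain ⟨q, hq⟩ := (mem_Fq _).1 z.2
    exact ⟨q, Subtype.ext hq.symm⟩
  have huF : LinearIndependent Fq u := by
    rw [Fintype.linearIndependent_iff] at hu ⊢
    intro g hg i
    choose q hq using fun i => hcs (g i)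
    have h1 := hu q (by
      rw [← hg]
      refine Finset.sum_congr rfl fun i _ => ?_
      rw [← hq i]
      simp only [c, Algebra.smul_def, eq_ratCast]
      rfl) i
    rw [← hq i, h1]
    apply Subtype.ext
    simp [c]
  obtain ⟨n, U, hU, hUe⟩ := key Fq Fq_alg e x hx lam hlam u huF hfree
  -- coordinatewise
  let f : (Fin N → ℚ) →ₗ[ℚ] (Fin N → Fq) :=
    { toFun := fun m i => c (m i)
      map_add' := fun a b => by
        funext i
        apply Subtype.ext
        simp [c]
      map_smul' := fun r a => by
        funext i
        apply Subtype.ext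
        simp [c, Algebra.smul_def] }
  refine ⟨n, fun j => ((U j).restrictScalars ℚ).comap f, fun j => ?_, ?_⟩
  · -- a basis over `ℚ` is independent over `Fq`
    have hfd : FiniteDimensional ℚ (((U j).restrictScalars ℚ).comap f) := inferInstance
    let b := Module.finBasis ℚ (((U j).restrictScalars ℚ).comap f)
    have hb : LinearIndependent Fq fun i => (⟨f (b i), (b i).2⟩ : U j) := by
      have h0 : LinearIndependent Fq fun i => f (b i) := by
        rw [Fintype.linearIndependent_iff]
        intro g hg i
        choose q hq using fun i => hcs (g i)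
        have h1 : ∑ i, q i • b i = 0 := by
          apply Subtype.ext
          funext k
          have h2 := congrFun hg k
          have h3 := congrArg (fun z : Fq => (z : ℂ)) h2
          simp only [Finset.sum_apply, Pi.smul_apply, smul_eq_mul] at h3
          have h4 : (∑ i, (q i : ℂ) * (((b i : Fin N → ℚ) k : ℚ) : ℂ)) = 0 := by
            refine Eq.trans ?_ h3
            push_cast
            refine (Finset.sum_congr rfl fun i _ => ?_)
            rw [← hq i]
            rfl
          have h5 : ∑ i, q i * (b i : Fin N → ℚ) k = 0 := by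
            exact_mod_cast h4
          simpa [Submodule.coe_sum, Finset.sum_apply] using h5
        have h6 := Fintype.linearIndependent_iff.1 b.linearIndependent q h1 i
        rw [← hq i, h6]
        apply Subtype.ext
        simp [c]
      exact LinearIndependent.of_comp (U j).subtype h0
    have h7 := hb.fintype_card_le_finrank
    rw [Fintype.card_fin] at h7
    exact h7.trans (hU j)
  · intro m hm
    obtain ⟨j, hj⟩ := hUe (fun i => c (m i)) hm
    exact ⟨j, hj⟩

end Pool.Agent.PiTow
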