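import Pool.Agent.PiTow.Key

/-!
# Rational functions of bounded degree
-/

set_option autoImplicit false

namespace Pool.Agent.PiTow

theorem rel_rat (e : ℕ) (x : ℂ) (P Q : Polynomial ℂ) (hP : ∀ n, IsAlgebraic ℚ (P.coeff n))
    (hQ : ∀ n, IsAlgebraic ℚ (Q.coeff n)) (hPd : P.natDegree ≤ e) (hQd : Q.natDegree ≤ e)
    (hQ0 : Q.eval x ≠ 0) : Pool.Agent.DI.RX e x (P.eval x / Q.eval x) := by
  let T : MvPolynomial (Fin 2) ℂ := ∑ i ∈ Finset.range (e + 1), MvPolynomial.X 0 ^ i *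
    (MvPolynomial.C (Q.coeff i) * MvPolynomial.X 1 - MvPolynomial.C (P.coeff i))
  have hev : ∀ w : ℂ, MvPolynomial.eval ![x, w] T = w * Q.eval x - P.eval x := fun w => by
    rw [Polynomial.eval_eq_sum_range' (Nat.lt_succ_of_le hQd) x,
      Polynomial.eval_eq_sum_range' (Nat.lt_succ_of_le hPd) x, Finset.mul_sum,
      ← Finset.sum_sub_distrib]
    simp only [T, map_sum, map_mul, map_pow, map_sub, MvPolynomial.eval_X, MvPolynomial.eval_C,
      Matrix.cons_val_zero, Matrix.cons_val_one]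
    exact Finset.sum_congr rfl fun i _ => by ring
  refine ⟨T, fun h => ?_, ?_, ?_, ?_⟩
  · have h1 := hev (P.eval x / Q.eval x + 1)
    rw [h, map_zero, add_mul, div_mul_cancel₀ _ hQ0] at h1
    apply hQ0
    linear_combination -h1
  · refine (MvPolynomial.degreeOf_sum_le 0 _ _).trans (Finset.sup_le fun i hi => ?_)
    have h1 : i ≤ e := Nat.lt_succ_iff.1 (Finset.mem_range.1 hi)
    refine (MvPolynomial.degreeOf_mul_le _ _ _).trans ?_
    have h2 : (MvPolynomial.X 0 ^ i : MvPolynomial (Fin 2) ℂ).degreeOf 0 ≤ i := by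
      refine (MvPolynomial.degreeOf_pow_le _ _ _).trans ?_
      rw [MvPolynomial.degreeOf_X]
      simp
    have h3 : (MvPolynomial.C (Q.coeff i) * MvPolynomial.X 1 - MvPolynomial.C (P.coeff i) :
        MvPolynomial (Fin 2) ℂ).degreeOf 0 ≤ 0 := by
      rw [sub_eq_add_neg, ← map_neg]
      refine (MvPolynomial.degreeOf_add_le _ _ _).trans (max_le ?_ ?_)
      · refine (MvPolynomial.degreeOf_C_mul_le _ _ _).trans ?_
        rw [MvPolynomial.degreeOf_X]
        simp
      · rw [MvPolynomial.degreeOf_C]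
    omega
  · have hT : T ∈ (MvPolynomial.map (σ := Fin 2)
        (algebraMap (algebraicClosure ℚ ℂ) ℂ)).range := by
      have hC : ∀ c : ℂ, IsAlgebraic ℚ c → (MvPolynomial.C c : MvPolynomial (Fin 2) ℂ) ∈
          (MvPolynomial.map (σ := Fin 2) (algebraMap (algebraicClosure ℚ ℂ) ℂ)).range :=
        fun c hc => ⟨MvPolynomial.C ⟨c, mem_algebraicClosure_iff.2 hc⟩, by
          rw [MvPolynomial.map_C]; rfl⟩
      have hX : ∀ i, (MvPolynomial.X i : MvPolynomial (Fin 2) ℂ) ∈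
          (MvPolynomial.map (σ := Fin 2) (algebraMap (algebraicClosure ℚ ℂ) ℂ)).range :=
        fun i => ⟨MvPolynomial.X i, MvPolynomial.map_X _ _⟩
      exact sum_mem fun i _ => mul_mem (pow_mem (hX 0) i)
        (sub_mem (mul_mem (hC _ (hQ i)) (hX 1)) (hC _ (hP i)))
    obtain ⟨T', hT'⟩ := hT
    intro m
    rw [← hT', MvPolynomial.coeff_map]
    exact mem_algebraicClosure_iff.1 (T'.coeff m).2
  · rw [hev, div_mul_cancel₀ _ hQ0, sub_self]

end Pool.Agent.PiTow
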