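import Pool.Agent.PiTow.Curve

/-!
# Algebraic exponents
-/

set_option autoImplicit false

namespace Pool.Agent.PiTow

open Module Submodule

theorem indep_K (K : Subfield ℂ) (hK : ∀ c ∈ K, IsAlgebraic ℚ c) {N : ℕ} (u : Fin N → ℂ)
    (hu : LinearIndependent ℚ u) (he : ∀ i, IsAlgebraic ℚ (Complex.exp (u i))) :
    LinearIndependent K u := by
  rw [Fintype.linearIndependent_iff]
  intro g hg i
  have h1 := (Pool.Agent.BKR.baker u hu he (fun i => (g i : ℂ)) 0
    (fun i => hK _ (g i).2) isAlgebraic_zero (by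
      rw [zero_add, ← hg]
      exact Finset.sum_congr rfl fun i _ => (Algebra.smul_def (g i) (u i)).symm)).2 i
  exact Subtype.ext h1

theorem part_spaces (K : Subfield ℂ) (hK : ∀ c, c ∈ K ↔ IsAlgebraic ℚ c) (e N : ℕ) (x : ℂ)
    (hx : ¬ IsAlgebraic ℚ x) (lam : ℂ) (hlam : lam ≠ 0) (t : Fin N → ℂ)
    (ht : ∀ i, IsAlgebraic ℚ (Complex.exp (t i)))
    (hind : ∀ m : Fin N → ℤ, ∏ i, Complex.exp (t i) ^ m i = 1 → m = 0) :
    ∃ (n : ℕ) (U : Fin n → Submodule K (Fin N → K)), (∀ j, finrank K (U j) ≤ e + 1) ∧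
      ∀ β : Fin N → K, (∃ z, Pool.Agent.DI.RX e x z ∧
        Complex.exp (z * lam) = Complex.exp (∑ i, (β i : ℂ) * t i)) → ∃ j, β ∈ U j := by
  have hu := indep_K K (fun c hc => (hK c).1 hc) _ (indep_logs t hind) (exp_cons_alg t ht)
  obtain ⟨n, U, hU, hUe⟩ := key K (fun c hc => (hK c).1 hc) e x hx lam hlam _ hu
    (Pool.Agent.DI.free0_all K hK _)
  refine ⟨n, U, hU, ?_⟩
  rintro β ⟨z, hz, hz2⟩
  obtain ⟨k, hk⟩ := Complex.exp_eq_exp_iff_exists_int.1 hz2
  have h2 := hUe (Fin.cons (k : K) β)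
    (by
      have h3 : (∑ i, (((Fin.cons (k : K) β : Fin (N + 1) → K) i : K) : ℂ) *
          (Fin.cons (2 * Real.pi * Complex.I) t : Fin (N + 1) → ℂ) i) / lam = z := by
        rw [Fin.sum_univ_succ, div_eq_iff hlam, hk]
        simp only [Fin.cons_zero, Fin.cons_succ]
        push_cast
        ring
      rw [h3]
      exact hz)
  obtain ⟨j, hj⟩ := h2
  exact ⟨j, by simpa only [Fin.cons_succ] using hj⟩

end Pool.Agent.PiTow
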